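import Pool.Agent.Run7.h635.GEN.Stm

/-!
# Coefficients of cusp forms grow polynomially
-/

set_option autoImplicit false

open Complex UpperHalfPlane ModularFormClass MatrixGroups

namespace H250.GEN

open H635.GEN

lemma bnd_aux (𝒢 : Subgroup (GL (Fin 2) ℝ)) [𝒢.IsArithmetic] (h1 : (1 : ℝ) ∈ 𝒢.strictPeriods)
    (k : ℤ) (f : CuspForm 𝒢 k) : ∃ C : ℝ, ∀ n : ℕ, 0 < n →
    ‖(UpperHalfPlane.qExpansion 1 f).coeff n‖ ≤ C * (n : ℝ) ^ ((k : ℝ) / 2) := by
  obtain ⟨C, hC⟩ := CuspFormClass.exists_bound f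
  refine ⟨(1 / Real.exp (-2 * Real.pi)) * C, fun n hn => ?_⟩
  have hn0 : (0 : ℝ) < n := by exact_mod_cast hn
  rw [ModularFormClass.qExpansion_coeff_eq_intervalIntegral (t := 1 / n) f one_pos h1 _
    (by positivity), ← intervalIntegral.integral_const_mul]
  have hb : ∀ x ∈ Set.uIoc (0 : ℝ) 1, ‖(1 / ((1 : ℝ) : ℂ)) *
      (1 / Function.Periodic.qParam 1 ((x : ℂ) + ((1 / n : ℝ) : ℂ) * Complex.I) ^ n *
        f ⟨(x : ℂ) + ((1 / n : ℝ) : ℂ) * Complex.I, by simpa using hn⟩)‖ ≤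
      (1 / Real.exp (-2 * Real.pi)) * C * (n : ℝ) ^ ((k : ℝ) / 2) := by
    intro x _
    have h2 := hC ⟨(x : ℂ) + ((1 / n : ℝ) : ℂ) * Complex.I, by simpa using hn⟩
    have him : UpperHalfPlane.im ⟨(x : ℂ) + ((1 / n : ℝ) : ℂ) * Complex.I, by simpa using hn⟩
        = 1 / (n : ℝ) := by
      change ((x : ℂ) + ((1 / n : ℝ) : ℂ) * Complex.I).im = _
      simp
    rw [him] at h2
    have h3 : C / (1 / (n : ℝ)) ^ ((k : ℝ) / 2) = C * (n : ℝ) ^ ((k : ℝ) / 2) := by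
      rw [one_div, Real.inv_rpow hn0.le, div_inv_eq_mul]
    rw [h3] at h2
    have h4 : ‖Function.Periodic.qParam 1 ((x : ℂ) + ((1 / n : ℝ) : ℂ) * Complex.I)‖ ^ n =
        Real.exp (-2 * Real.pi) := by
      rw [Function.Periodic.norm_qParam, ← Real.exp_nat_mul]
      congr 1
      simp
      field_simp
    rw [norm_mul, norm_mul, norm_div, norm_div, norm_pow, h4]
    simp only [norm_one, ofReal_one, div_one, one_mul]
    rw [mul_assoc]
    exact mul_le_mul_of_nonneg_left h2 (by positivity)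
  have := intervalIntegral.norm_integral_le_of_norm_le_const hb
  simpa using this

/-- Statement BND. -/
theorem bnd : S_Bnd := by
  intro 𝒢 _ h1 k f
  obtain ⟨C, hC⟩ := bnd_aux 𝒢 h1 k f
  refine ⟨max |C| ‖(UpperHalfPlane.qExpansion 1 f).coeff 0‖, k.natAbs, fun n => ?_⟩
  have hA : (1 : ℝ) ≤ ((n : ℝ) + 1) ^ k.natAbs := one_le_pow₀ (by linarith [n.cast_nonneg (α := ℝ)])
  rcases Nat.eq_zero_or_pos n with rfl | hn
  · have h2 : 0 ≤ max |C| ‖(UpperHalfPlane.qExpansion 1 f).coeff 0‖ :=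
      le_trans (abs_nonneg C) (le_max_left _ _)
    calc ‖(UpperHalfPlane.qExpansion 1 f).coeff 0‖ ≤ max |C| ‖(UpperHalfPlane.qExpansion 1 f).coeff 0‖ :=
          le_max_right _ _
      _ ≤ _ := le_mul_of_one_le_right h2 hA
  · have hn1 : (1 : ℝ) ≤ n := by exact_mod_cast hn
    have h3 : (n : ℝ) ^ ((k : ℝ) / 2) ≤ ((n : ℝ) + 1) ^ k.natAbs := by
      rw [← Real.rpow_natCast]
      calc (n : ℝ) ^ ((k : ℝ) / 2) ≤ (n : ℝ) ^ ((k.natAbs : ℕ) : ℝ) := by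
            refine Real.rpow_le_rpow_of_exponent_le hn1 ?_
            have : (k : ℝ) ≤ ((k.natAbs : ℕ) : ℝ) :=
              calc (k : ℝ) ≤ ((k.natAbs : ℤ) : ℝ) := Int.cast_le.mpr Int.le_natAbs
                _ = ((k.natAbs : ℕ) : ℝ) := Int.cast_natCast _
            have h0 : (0 : ℝ) ≤ ((k.natAbs : ℕ) : ℝ) := Nat.cast_nonneg _
            linarith
        _ ≤ ((n : ℝ) + 1) ^ ((k.natAbs : ℕ) : ℝ) :=
            Real.rpow_le_rpow (by linarith) (by linarith) (Nat.cast_nonneg _)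
    calc ‖(UpperHalfPlane.qExpansion 1 f).coeff n‖ ≤ C * (n : ℝ) ^ ((k : ℝ) / 2) := hC n hn
      _ ≤ max |C| ‖(UpperHalfPlane.qExpansion 1 f).coeff 0‖ * (n : ℝ) ^ ((k : ℝ) / 2) :=
          mul_le_mul_of_nonneg_right ((le_abs_self C).trans (le_max_left _ _)) (by positivity)
      _ ≤ _ := mul_le_mul_of_nonneg_left h3 (le_trans (abs_nonneg C) (le_max_left _ _))

end H250.GEN
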