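import Pool.Agent.Run7.h635.GEN.Stm
import Pool.Agent.Run7.h594.GEN.AlgU

/-!
# Descent from `ℂ` to `ℚ`
-/

set_option autoImplicit false

namespace H250.GEN

open Polynomial H809.OD H594.GEN H635.GEN

/-- apply a `ℚ`-linear functional to the coefficients of a polynomial -/
noncomputable def mapf (f : ℂ →ₗ[ℚ] ℚ) (P : Polynomial ℂ) : Polynomial ℚ :=
  ∑ j ∈ Finset.range (P.natDegree + 1), C (f (P.coeff j)) * X ^ j

lemma mapf_coeff (f : ℂ →ₗ[ℚ] ℚ) (P : Polynomial ℂ) (j : ℕ) :
    (mapf f P).coeff j = f (P.coeff j) := by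
  rw [mapf, finsetSum_coeff]
  simp only [coeff_C_mul, coeff_X_pow, mul_ite, mul_one, mul_zero]
  rw [Finset.sum_ite_eq]
  split_ifs with h
  · rfl
  · rw [Polynomial.coeff_eq_zero_of_natDegree_lt (by simpa using h), map_zero]

lemma coeff_upc (G : PowerSeries ℚ) (n : ℕ) :
    PowerSeries.coeff n (Run7.h635.OD.upc G) = ((PowerSeries.coeff n G : ℚ) : ℂ) := by
  rw [Run7.h635.OD.upc, PowerSeries.coeff_map]
  rfl

lemma f_rat (f : ℂ →ₗ[ℚ] ℚ) (c : ℂ) (r : ℚ) : f (c * (r : ℂ)) = f c * r := by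
  have : c * (r : ℂ) = r • c := by
    rw [Rat.smul_def, mul_comm]
  rw [this, map_smul, smul_eq_mul, mul_comm]

/-- Statement DESC. -/
theorem desc : S_Desc := by
  rintro G ⟨Φ, h0, h1⟩
  -- a functional
  obtain ⟨i0, hi0⟩ : ∃ i, Φ.coeff i ≠ 0 := by
    by_contra h
    push Not at h
    exact h0 (Polynomial.ext fun i => by rw [h i, coeff_zero])
  obtain ⟨j0, hj0⟩ : ∃ j, (Φ.coeff i0).coeff j ≠ 0 := by
    by_contra h
    push Not at h
    exact hi0 (Polynomial.ext fun i => by rw [h i, coeff_zero])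
  obtain ⟨f, hf⟩ : ∃ f : ℂ →ₗ[ℚ] ℚ, f ((Φ.coeff i0).coeff j0) ≠ 0 := by
    by_contra h
    push Not at h
    exact hj0 ((Module.forall_dual_apply_eq_zero_iff ℚ _).mp h)
  refine ⟨∑ i ∈ Finset.range (Φ.natDegree + 1), C (mapf f (Φ.coeff i)) * X ^ i, ?_, ?_⟩
  · intro hz
    have h2 := congrArg (fun p => Polynomial.coeff p i0) hz
    simp only [finsetSum_coeff, coeff_C_mul, coeff_X_pow, coeff_zero, mul_ite, mul_one,
      mul_zero] at h2
    rw [Finset.sum_ite_eq, if_pos (by
      rw [Finset.mem_range]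
      exact Nat.lt_succ_of_le (Polynomial.le_natDegree_of_ne_zero hi0))] at h2
    have h3 := congrArg (fun p => Polynomial.coeff p j0) h2
    simp only [mapf_coeff, coeff_zero] at h3
    exact hf h3
  · -- the relation
    have h2 : ∀ n : ℕ, ∑ i ∈ Finset.range (Φ.natDegree + 1),
        ∑ j ∈ Finset.range ((Φ.coeff i).natDegree + 1),
          (Φ.coeff i).coeff j * ((PowerSeries.coeff n (u ^ j * G ^ i) : ℚ) : ℂ) = 0 := by
      intro n
      have h3 := congrArg (PowerSeries.coeff n) h1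
      rw [Polynomial.eval₂_eq_sum_range, map_sum, map_zero] at h3
      rw [← h3]
      refine Finset.sum_congr rfl fun i _ => ?_
      change _ = PowerSeries.coeff n ((aeval (Run7.h635.OD.upc u) (Φ.coeff i)) *
        (Run7.h635.OD.upc G) ^ i)
      rw [Polynomial.aeval_eq_sum_range, Finset.sum_mul, map_sum]
      refine Finset.sum_congr rfl fun j _ => ?_
      rw [smul_mul_assoc, ← map_pow, ← map_pow, ← map_mul, map_smul, coeff_upc, smul_eq_mul]
    rw [map_sum]
    ext n
    rw [map_sum, map_zero]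
    have h4 := congrArg f (h2 n)
    rw [map_zero, map_sum] at h4
    rw [← h4]
    refine Finset.sum_congr rfl fun i _ => ?_
    rw [map_sum, map_mul, map_pow, ev2_C, ev2_X, mapf, map_sum, Finset.sum_mul, map_sum]
    refine Finset.sum_congr rfl fun j _ => ?_
    rw [f_rat, map_mul (aeval u), map_pow (aeval u), aeval_X, aeval_C, mul_assoc]
    change PowerSeries.coeff n (PowerSeries.C _ * _) = _
    rw [PowerSeries.coeff_C_mul]

end H250.GEN
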