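import Pool.Agent.Run7.h635.GEN.Stm
import Pool.Agent.Run7.h594.GEN.AlgU

/-!
# Series which are algebraic over `K(u)`, `K` any field of characteristic zero

Closure properties, ascent and descent along an embedding of fields.
-/

set_option autoImplicit false
set_option linter.unusedSectionVars false

namespace H250.GEN

open Polynomial H809.OD H594.GEN H635.GEN

universe v w'

section basic

variable (K : Type v) [Field K] [Algebra ℚ K]

/-- `u` with coefficients in `K` -/
noncomputable def uK : PowerSeries K := PowerSeries.map (algebraMap ℚ K) u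

lemma uK_coeff_zero : PowerSeries.coeff 0 (uK K) = 0 := by
  rw [uK, PowerSeries.coeff_map, theta_holds.u_zero, map_zero]

lemma uK_coeff_one : PowerSeries.coeff 1 (uK K) = 1 := by
  rw [uK, PowerSeries.coeff_map, theta_holds.u_one, map_one]

lemma uK_ne : uK K ≠ 0 := by
  intro h
  have := uK_coeff_one K
  rw [h, map_zero] at this
  exact zero_ne_one this

variable {K}

lemma aeval_uK_ne {P : Polynomial K} (hP : P ≠ 0) : (aeval (uK K) P : PowerSeries K) ≠ 0 := by
  have key : ∀ (n : ℕ) (P : Polynomial K), P.natDegree ≤ n →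
      (aeval (uK K) P : PowerSeries K) = 0 → P = 0 := by
    intro n
    induction n with
    | zero =>
      intro P hP h
      rw [Polynomial.eq_C_of_natDegree_le_zero hP, aeval_C] at h
      have h1 : PowerSeries.C (P.coeff 0) = (0 : PowerSeries K) := h
      rw [Polynomial.eq_C_of_natDegree_le_zero hP]
      have h2 := PowerSeries.C_injective (h1.trans (map_zero _).symm)
      rw [h2, map_zero]
    | succ n ih =>
      intro P hP h
      have h0 : P.coeff 0 = 0 := by
        have h1 := congrArg (PowerSeries.constantCoeff (R := K)) h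
        rw [← Polynomial.divX_mul_X_add P, map_add, map_mul, aeval_X, aeval_C, map_add, map_mul,
          map_zero] at h1
        have h2 : PowerSeries.constantCoeff (uK K) = 0 := by
          rw [← PowerSeries.coeff_zero_eq_constantCoeff_apply]
          exact uK_coeff_zero K
        have h3 : PowerSeries.constantCoeff (algebraMap K (PowerSeries K) (P.coeff 0)) =
            P.coeff 0 := PowerSeries.constantCoeff_C _
        rw [h2, h3, mul_zero, zero_add] at h1
        exact h1
      have h1 : P = P.divX * X := by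
        conv_lhs => rw [← Polynomial.divX_mul_X_add P, h0, map_zero, add_zero]
      rw [h1, map_mul, aeval_X] at h
      have h2 := ih P.divX (by
        rw [Polynomial.natDegree_divX_eq_natDegree_tsub_one]
        omega) ((mul_eq_zero.1 h).resolve_right (uK_ne K))
      rw [h1, h2, zero_mul]
  exact fun h => hP (key _ P le_rfl h)

/-- `Φ ↦ Φ(u, G)` -/
noncomputable def evK (G : PowerSeries K) : Polynomial (Polynomial K) →+* PowerSeries K :=
  Polynomial.eval₂RingHom (Polynomial.aeval (uK K) : Polynomial K →ₐ[K] PowerSeries K).toRingHom G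

/-- `G` is algebraic over `K(u)` -/
def AlgK (G : PowerSeries K) : Prop := ∃ Φ : Polynomial (Polynomial K), Φ ≠ 0 ∧
  Polynomial.eval₂ (Polynomial.aeval (uK K) : Polynomial K →ₐ[K] PowerSeries K).toRingHom G Φ = 0

/-- `K[u]` -/
noncomputable def SK (K : Type v) [Field K] [Algebra ℚ K] : Subalgebra K (PowerSeries K) :=
  (Polynomial.aeval (uK K) : Polynomial K →ₐ[K] PowerSeries K).range

/-- `K[X] → K[u]` -/
noncomputable def rhoK : Polynomial K →+* SK K :=
  (Polynomial.aeval (uK K) : Polynomial K →ₐ[K] PowerSeries K).rangeRestrict.toRingHom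

lemma rhoK_surj : Function.Surjective (rhoK (K := K)) := by
  rintro ⟨x, P, hP⟩
  exact ⟨P, Subtype.ext hP⟩

lemma rhoK_inj : Function.Injective (rhoK (K := K)) := by
  rw [injective_iff_map_eq_zero]
  intro P h
  by_contra hP
  exact aeval_uK_ne hP (congrArg Subtype.val h)

lemma evK_eq (G : PowerSeries K) (Φ : Polynomial (Polynomial K)) :
    Polynomial.eval₂ (Polynomial.aeval (uK K) : Polynomial K →ₐ[K] PowerSeries K).toRingHom G Φ =
      Polynomial.aeval G (Φ.map rhoK) := by
  rw [aeval_def, eval₂_map]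
  rfl

lemma algK_iff (G : PowerSeries K) : AlgK G ↔ IsAlgebraic (SK K) G := by
  constructor
  · rintro ⟨Φ, h0, h1⟩
    refine ⟨Φ.map rhoK, ?_, ?_⟩
    · exact (Polynomial.map_ne_zero_iff rhoK_inj).mpr h0
    · rw [← evK_eq, h1]
  · rintro ⟨p, h0, h1⟩
    obtain ⟨Φ, rfl⟩ := Polynomial.map_surjective rhoK rhoK_surj p
    refine ⟨Φ, ?_, ?_⟩
    · rintro rfl
      exact h0 (by simp)
    · rw [evK_eq, h1]

lemma AlgK.add {x y : PowerSeries K} (hx : AlgK x) (hy : AlgK y) : AlgK (x + y) :=
  (algK_iff _).mpr (((algK_iff _).mp hx).add ((algK_iff _).mp hy))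

lemma AlgK.mul {x y : PowerSeries K} (hx : AlgK x) (hy : AlgK y) : AlgK (x * y) :=
  (algK_iff _).mpr (((algK_iff _).mp hx).mul ((algK_iff _).mp hy))

lemma AlgK.pow {x : PowerSeries K} (hx : AlgK x) (n : ℕ) : AlgK (x ^ n) :=
  (algK_iff _).mpr (((algK_iff _).mp hx).pow n)

lemma AlgK.neg {x : PowerSeries K} (hx : AlgK x) : AlgK (-x) :=
  (algK_iff _).mpr (((algK_iff _).mp hx).neg)

lemma AlgK.sub {x y : PowerSeries K} (hx : AlgK x) (hy : AlgK y) : AlgK (x - y) :=
  (algK_iff _).mpr (((algK_iff _).mp hx).sub ((algK_iff _).mp hy))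

lemma algK_poly (P : Polynomial K) : AlgK (aeval (uK K) P) := by
  rw [algK_iff]
  exact isAlgebraic_algebraMap (rhoK P)

lemma algK_C (a : K) : AlgK (PowerSeries.C a) := by
  have := algK_poly (C a : Polynomial K)
  rwa [aeval_C] at this

lemma algK_zero : AlgK (0 : PowerSeries K) := by
  have := algK_C (0 : K)
  rwa [map_zero] at this

lemma algK_one : AlgK (1 : PowerSeries K) := by
  have := algK_C (1 : K)
  rwa [map_one] at this

lemma algK_uK : AlgK (uK K) := by
  have := algK_poly (X : Polynomial K)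
  rwa [aeval_X] at this

lemma AlgK.smul {x : PowerSeries K} (hx : AlgK x) (a : K) : AlgK (a • x) := by
  rw [PowerSeries.smul_eq_C_mul]
  exact AlgK.mul (algK_C a) hx

lemma AlgK.sum {ι : Type*} (s : Finset ι) (x : ι → PowerSeries K) (h : ∀ i ∈ s, AlgK (x i)) :
    AlgK (∑ i ∈ s, x i) := by
  classical
  induction s using Finset.induction_on with
  | empty => simpa using algK_zero
  | insert i s hi ih =>
    rw [Finset.sum_insert hi]
    exact (h i (Finset.mem_insert_self i s)).add
      (ih fun j hj => h j (Finset.mem_insert_of_mem hj))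

lemma AlgK.prod {ι : Type*} (s : Finset ι) (x : ι → PowerSeries K) (h : ∀ i ∈ s, AlgK (x i)) :
    AlgK (∏ i ∈ s, x i) := by
  classical
  induction s using Finset.induction_on with
  | empty => simpa using algK_one
  | insert i s hi ih =>
    rw [Finset.prod_insert hi]
    exact (h i (Finset.mem_insert_self i s)).mul
      (ih fun j hj => h j (Finset.mem_insert_of_mem hj))

end basic

/-! ### ascent and descent -/

section desc

variable {K : Type v} [Field K] [Algebra ℚ K] {L : Type w'} [Field L] [Algebra ℚ L]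

lemma map_uK (φ : K →+* L) : PowerSeries.map φ (uK K) = uK L := by
  rw [uK, uK]
  ext n
  rw [PowerSeries.coeff_map, PowerSeries.coeff_map, PowerSeries.coeff_map, ← RingHom.comp_apply]
  exact congrFun (congrArg DFunLike.coe (Subsingleton.elim (φ.comp (algebraMap ℚ K))
    (algebraMap ℚ L))) _

/-- ascent along an embedding -/
theorem ascK (φ : K →+* L) {G : PowerSeries K} (hG : AlgK G) : AlgK (PowerSeries.map φ G) := by
  obtain ⟨Φ, h0, h1⟩ := hG
  refine ⟨Φ.map (mapRingHom φ), ?_, ?_⟩
  · exact (Polynomial.map_ne_zero_iff (Polynomial.map_injective φ φ.injective)).mpr h0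
  · have h2 : (Polynomial.aeval (uK L) : Polynomial L →ₐ[L] PowerSeries L).toRingHom.comp
        (mapRingHom φ) = (PowerSeries.map φ).comp
        (Polynomial.aeval (uK K) : Polynomial K →ₐ[K] PowerSeries K).toRingHom := by
      apply Polynomial.ringHom_ext
      · intro a
        change aeval (uK L) ((C a : K[X]).map φ) = PowerSeries.map φ (aeval (uK K) (C a : K[X]))
        rw [Polynomial.map_C, aeval_C, aeval_C]
        change PowerSeries.C (φ a) = PowerSeries.map φ (PowerSeries.C a)
        rw [PowerSeries.map_C]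
      · change aeval (uK L) ((X : K[X]).map φ) = PowerSeries.map φ (aeval (uK K) (X : K[X]))
        rw [Polynomial.map_X, aeval_X, aeval_X, map_uK]
    rw [eval₂_map, h2, ← hom_eval₂, h1, map_zero]

/-- apply a `K`-linear functional to the coefficients of a polynomial -/
noncomputable def mapfK (f : L →+ K) (P : Polynomial L) : Polynomial K :=
  ∑ j ∈ Finset.range (P.natDegree + 1), C (f (P.coeff j)) * X ^ j

lemma mapfK_coeff (f : L →+ K) (P : Polynomial L) (j : ℕ) :
    (mapfK f P).coeff j = f (P.coeff j) := by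
  rw [mapfK, finsetSum_coeff]
  simp only [coeff_C_mul, coeff_X_pow, mul_ite, mul_one, mul_zero]
  rw [Finset.sum_ite_eq]
  split_ifs with h
  · rfl
  · rw [Polynomial.coeff_eq_zero_of_natDegree_lt (by simpa using h), map_zero]

/-- a `K`-linear functional which does not vanish at a given element -/
lemma exists_functional (φ : K →+* L) (c : L) (hc : c ≠ 0) : ∃ f : L →+ K, f c ≠ 0 ∧
    ∀ (x : L) (r : K), f (x * φ r) = f x * r := by
  let _ : Algebra K L := φ.toAlgebra
  obtain ⟨f, hf⟩ : ∃ f : Module.Dual K L, f c ≠ 0 := by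
    by_contra h
    push Not at h
    exact hc ((Module.forall_dual_apply_eq_zero_iff K _).mp h)
  refine ⟨f.toAddMonoidHom, hf, fun x r => ?_⟩
  have h1 : x * φ r = r • x := by
    rw [Algebra.smul_def, mul_comm]
    rfl
  change f (x * φ r) = f x * r
  rw [h1, map_smul, smul_eq_mul, mul_comm]

/-- descent along an embedding -/
theorem descK (φ : K →+* L) {G : PowerSeries K} (hG : AlgK (PowerSeries.map φ G)) : AlgK G := by
  obtain ⟨Φ, h0, h1⟩ := hG
  -- a functional
  obtain ⟨i0, hi0⟩ : ∃ i, Φ.coeff i ≠ 0 := by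
    by_contra h
    push Not at h
    exact h0 (Polynomial.ext fun i => by rw [h i, coeff_zero])
  obtain ⟨j0, hj0⟩ : ∃ j, (Φ.coeff i0).coeff j ≠ 0 := by
    by_contra h
    push Not at h
    exact hi0 (Polynomial.ext fun i => by rw [h i, coeff_zero])
  obtain ⟨f, hf, hfK⟩ := exists_functional φ _ hj0
  refine ⟨∑ i ∈ Finset.range (Φ.natDegree + 1), C (mapfK f (Φ.coeff i)) * X ^ i, ?_, ?_⟩
  · intro hz
    have h2 := congrArg (fun p => Polynomial.coeff p i0) hz
    simp only [finsetSum_coeff, coeff_C_mul, coeff_X_pow, coeff_zero, mul_ite, mul_one,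
      mul_zero] at h2
    rw [Finset.sum_ite_eq, if_pos (by
      rw [Finset.mem_range]
      exact Nat.lt_succ_of_le (Polynomial.le_natDegree_of_ne_zero hi0))] at h2
    have h3 := congrArg (fun p => Polynomial.coeff p j0) h2
    simp only [mapfK_coeff, coeff_zero] at h3
    exact hf h3
  · -- the relation
    have h2 : ∀ n : ℕ, ∑ i ∈ Finset.range (Φ.natDegree + 1),
        ∑ j ∈ Finset.range ((Φ.coeff i).natDegree + 1),
          (Φ.coeff i).coeff j * φ (PowerSeries.coeff n (uK K ^ j * G ^ i)) = 0 := by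
      intro n
      have h3 := congrArg (PowerSeries.coeff n) h1
      rw [Polynomial.eval₂_eq_sum_range, map_sum, map_zero] at h3
      rw [← h3]
      refine Finset.sum_congr rfl fun i _ => ?_
      change _ = PowerSeries.coeff n ((aeval (uK L) (Φ.coeff i)) *
        (PowerSeries.map φ G) ^ i)
      rw [Polynomial.aeval_eq_sum_range, Finset.sum_mul, map_sum]
      refine Finset.sum_congr rfl fun j _ => ?_
      rw [smul_mul_assoc, ← map_uK φ, ← map_pow, ← map_pow, ← map_mul, map_smul,
        PowerSeries.coeff_map, smul_eq_mul]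
    rw [Polynomial.eval₂_finsetSum]
    ext n
    rw [map_sum, map_zero]
    have h4 := congrArg f (h2 n)
    rw [map_zero, map_sum] at h4
    rw [← h4]
    refine Finset.sum_congr rfl fun i _ => ?_
    rw [map_sum, Polynomial.eval₂_mul, Polynomial.eval₂_pow, Polynomial.eval₂_C,
      Polynomial.eval₂_X]
    change PowerSeries.coeff n (aeval (uK K) (mapfK f (Φ.coeff i)) * G ^ i) = _
    rw [mapfK, map_sum, Finset.sum_mul, map_sum]
    refine Finset.sum_congr rfl fun j _ => ?_
    rw [hfK, map_mul (aeval (uK K)), map_pow (aeval (uK K)), aeval_X, aeval_C, mul_assoc]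
    change PowerSeries.coeff n (PowerSeries.C _ * _) = _
    rw [PowerSeries.coeff_C_mul]

end desc

/-! ### the field of complex numbers -/

lemma algK_C_iff (G : PowerSeries ℂ) : AlgK G ↔ AlgC G := Iff.rfl

lemma algK_Q_iff (G : PowerSeries ℚ) : AlgK G ↔ AlgU G := by
  have h : uK ℚ = u := by
    rw [uK]
    ext n
    rw [PowerSeries.coeff_map]
    rfl
  unfold AlgK AlgU
  rw [h]
  rfl

/-- descent from `ℂ` to a field `K` -/
theorem desc_field {K : Type v} [Field K] [Algebra ℚ K] (φ : K →+* ℂ) (G : PowerSeries K)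
    (hG : AlgC (PowerSeries.map φ G)) : AlgK G := descK φ hG

/-- all conjugates are algebraic as soon as one is -/
theorem conj {K : Type v} [Field K] [Algebra ℚ K] (φ σ : K →+* ℂ) (G : PowerSeries K)
    (hG : AlgC (PowerSeries.map φ G)) : AlgC (PowerSeries.map σ G) := ascK σ (descK φ hG)

theorem AlgC.add {x y : PowerSeries ℂ} (hx : AlgC x) (hy : AlgC y) : AlgC (x + y) :=
  AlgK.add hx hy

theorem AlgC.sub {x y : PowerSeries ℂ} (hx : AlgC x) (hy : AlgC y) : AlgC (x - y) :=
  AlgK.sub hx hy

theorem AlgC.mul {x y : PowerSeries ℂ} (hx : AlgC x) (hy : AlgC y) : AlgC (x * y) :=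
  AlgK.mul hx hy

theorem AlgC.smul {x : PowerSeries ℂ} (hx : AlgC x) (a : ℂ) : AlgC (a • x) :=
  AlgK.smul hx a

theorem AlgC.sum {ι : Type*} (s : Finset ι) (x : ι → PowerSeries ℂ) (h : ∀ i ∈ s, AlgC (x i)) :
    AlgC (∑ i ∈ s, x i) := AlgK.sum s x h

theorem AlgC.const (a : ℂ) : AlgC (PowerSeries.C a) := algK_C a

theorem AlgC.upc {x : PowerSeries ℚ} (hx : AlgU x) : AlgC (Run7.h635.OD.upc x) :=
  ascK (algebraMap ℚ ℂ) ((algK_Q_iff x).mpr hx)

/-- If `φ G` is algebraic for one embedding `φ` of a number field `K`, the trace of `a G` is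
algebraic for every `a ∈ K`. -/
theorem trace {K : Type v} [Field K] [NumberField K] (φ : K →+* ℂ) (G : PowerSeries K)
    (hG : AlgC (PowerSeries.map φ G)) (a : K) :
    AlgU (PowerSeries.mk fun n => Algebra.trace ℚ K (a * PowerSeries.coeff n G)) := by
  rw [← algK_Q_iff]
  refine descK (algebraMap ℚ ℂ) ?_
  have h1 : PowerSeries.map (algebraMap ℚ ℂ)
      (PowerSeries.mk fun n => Algebra.trace ℚ K (a * PowerSeries.coeff n G)) =
      ∑ σ : K →ₐ[ℚ] ℂ, σ a • PowerSeries.map (σ : K →+* ℂ) G := by
    ext n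
    rw [PowerSeries.coeff_map, PowerSeries.coeff_mk, trace_eq_sum_embeddings (E := ℂ), map_sum]
    refine Finset.sum_congr rfl fun σ _ => ?_
    rw [map_mul, map_smul, PowerSeries.coeff_map, smul_eq_mul]
    rfl
  rw [h1]
  exact AlgK.sum _ _ fun σ _ => AlgK.smul (ascK _ (descK φ hG)) _

end H250.GEN
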