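import Pool.Agent.Run7.h809.GEN.GZ2

/-!
# Piece NOSOL: no algebraic primitive of an algebraic form of weight `N + 2`

The statement `S_NoSol` of `Stm.lean` lacks the hypothesis `AlgU G` (without it `G = N ζ` is a
counterexample: `(w ^ N)′ = N ζ w ^ N`). Here is the corrected statement and its proof.
-/

set_option autoImplicit false
set_option linter.unusedSectionVars false

open Polynomial Differential
open scoped Differential

namespace H250.GEN

open H809.OD H809.OD.Abs H809.OD.Inst H635.GEN H809.GEN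

/-- NOSOL, corrected. -/
def S_NoSol' : Prop := ∀ (N : ℕ) (G : PowerSeries ℚ), 1 ≤ N → AlgU G → G ≠ 0 →
  PowerSeries.coeff 0 G = 0 → PolyGrowth (w ^ (N + 2) * G) → NoSol N G

lemma taylor_top {L : Type} [Field L] (r : L) (f : L[X]) (N : ℕ) (h : f.natDegree ≤ N) :
    (taylor r f).coeff N = f.coeff N := by
  rcases h.lt_or_eq with h | h
  · rw [coeff_eq_zero_of_natDegree_lt (by rwa [natDegree_taylor]),
      coeff_eq_zero_of_natDegree_lt h]
  · rw [← h, coeff_taylor_natDegree]; rfl

lemma co_rat (a : ℚ) (y : Lf) (m : ℤ) : co ((a : Lf) * y) m = a * co y m := by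
  have h : ((a : ℚ) : Lf) = (HahnSeries.C a : LaurentSeries ℚ) :=
    (map_ratCast (HahnSeries.C : ℚ →+* LaurentSeries ℚ) a).symm
  have key : ∀ z : LaurentSeries ℚ, (HahnSeries.C a * z).coeff m = a * z.coeff m := by
    intro z
    rw [HahnSeries.C_mul_eq_smul, HahnSeries.coeff_smul, smul_eq_mul]
  rw [h]
  exact key y

lemma EL_eq (x y : Lf) (h : x′ = (io w ^ 2)⁻¹ * y) : EL x = y := by
  rw [deriv_Lf] at h
  exact mul_left_cancel₀ (inv_ne_zero (pow_ne_zero 2 io_w0)) h

/-- The constants. -/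
noncomputable def gam (N : ℕ) (j : ℕ) : ℚ := ∏ i ∈ Finset.range j, (-((N : ℚ) - i))

lemma gam_ne (N : ℕ) : gam N N ≠ 0 := by
  rw [gam, Finset.prod_ne_zero_iff]
  intro i hi
  have h1 : (i : ℚ) < N := by exact_mod_cast Finset.mem_range.1 hi
  exact neg_ne_zero.mpr (sub_pos.2 h1).ne'

theorem nosol (hneg : S_Neg) : S_NoSol' := by
  intro N G hN hG hG0 hG1 hgr c A hc hA heq
  -- the coefficients
  have hA' : ∀ i, IsAlgebraic Kf (A i) := by
    intro i
    obtain ⟨P, hP, hP0⟩ := hA i
    refine ⟨P.map al, map_al_ne P hP, ?_⟩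
    have h1 : (algebraMap Kf Lf).comp al =
        io.comp (Polynomial.aeval u : Polynomial ℚ →ₐ[ℚ] PowerSeries ℚ).toRingHom :=
      RingHom.ext fun P => am_al P
    rw [aeval_def, eval₂_map, h1, hP0]
  let a : ℕ → Ka := fun i => mkK (A i) (hA' i)
  obtain ⟨g, hg⟩ : ∃ g : Ka[X], g = ∑ i ∈ Finset.range (N + 1), C (a i) * X ^ i := ⟨_, rfl⟩
  have hgc : ∀ i, i ≤ N → g.coeff i = a i := by
    intro i hi
    rw [hg, finsetSum_coeff]
    simp only [coeff_C_mul, coeff_X_pow, mul_ite, mul_one, mul_zero]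
    rw [Finset.sum_ite_eq, if_pos (Finset.mem_range.2 (by omega))]
  have hgd : g.natDegree ≤ N := by
    rw [hg]
    refine natDegree_sum_le_of_forall_le _ _ fun i hi => ?_
    refine (natDegree_C_mul_X_pow_le _ _).trans ?_
    have := Finset.mem_range.1 hi
    omega
  have hev : aeval (io zt) g = ∑ i ∈ Finset.range (N + 1), A i * io zt ^ i := by
    rw [hg, map_sum]
    refine Finset.sum_congr rfl fun i _ => ?_
    rw [map_mul, map_pow, aeval_C, aeval_X]
    rfl
  have hw : (sysA).w = io w := rfl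
  have hz : (sysA).ζ = io zt := rfl
  have hj : jK (gA G hG) = io G := rfl
  -- the equation
  have hnab : nab sysA N g = C ((c : Ka) * gA G hG) := by
    have h2 := aeval_nab sysA N g
    rw [hw, hz, hev, heq] at h2
    have h3 : aeval (io zt) (nab sysA N g) = (c : Lf) * io G := by
      refine mul_left_cancel₀ (pow_ne_zero N io_w0) ?_
      rw [h2]
      ring
    have h4 : aeval (sysA).ζ (nab sysA N g - C ((c : Ka) * gA G hG)) = 0 := by
      rw [hz, map_sub, h3, aeval_C, jK_eq, map_mul, map_ratCast, hj, sub_self]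
    exact sub_eq_zero.1 ((sysA).tr _ h4)
  -- the functionals
  have hH0 : EL (H sysA N 0 g) = (c : Lf) * io (w ^ (N + 2) * G) := by
    apply EL_eq
    rw [← H_nab_zero, H_zero_eq, hnab, aeval_C, jK_eq, map_mul, map_ratCast, hj, hw, map_mul,
      map_pow]
    have := io_w0
    field_simp
    ring
  have hHs : ∀ s < N, EL (H sysA N (s + 1) g) = ((-((N : ℚ) - s) : ℚ) : Lf) * H sysA N s g := by
    intro s _
    apply EL_eq
    have h1 := H_nab_succ sysA N s g
    have h2 : H sysA N (s + 1) (nab sysA N g) = 0 := by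
      rw [hnab]
      unfold H T
      rw [Polynomial.map_C, taylor_C, coeff_C_succ, mul_zero]
    rw [h2, hw] at h1
    push_cast
    linear_combination -h1
  have hco : ∀ (m : ℤ) (j : ℕ), j ≤ N →
      (m : ℚ) ^ j * co (H sysA N j g) m = gam N j * co (H sysA N 0 g) m := by
    intro m j
    induction j with
    | zero => intro _; simp [gam]
    | succ j ih =>
      intro hjN
      have h1 := congrArg (fun x => co x m) (hHs j (by omega))
      simp only [co_EL, co_rat] at h1
      rw [gam, Finset.prod_range_succ, ← gam, pow_succ, mul_assoc, h1]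
      have h2 := ih (by omega)
      linear_combination (-((N : ℚ) - j)) * h2
  have hcoN : ∀ m : ℤ, (m : ℚ) ^ (N + 1) * co (H sysA N N g) m =
      gam N N * (c * co (io (w ^ (N + 2) * G)) m) := by
    intro m
    have h1 := hco m N le_rfl
    have h2 := congrArg (fun x => co x m) hH0
    simp only [co_EL, co_rat] at h2
    rw [pow_succ, mul_assoc, mul_comm (m : ℚ), ← mul_assoc, h1, mul_assoc, mul_comm _ (m : ℚ), h2]
  -- the solution is a power series
  obtain ⟨h, hh⟩ : ∃ h : PowerSeries ℚ, h = PowerSeries.mk fun n : ℕ => co (H sysA N N g) n :=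
    ⟨_, rfl⟩
  have hx : H sysA N N g = io h := by
    apply co_ext
    intro m
    rw [co_io]
    split_ifs with hm
    · have h1 := hcoN m
      rw [co_io, if_pos hm, mul_zero, mul_zero] at h1
      exact (mul_eq_zero.1 h1).resolve_left (pow_ne_zero _ (by exact_mod_cast hm.ne))
    · rw [hh, PowerSeries.coeff_mk]
      congr 1
      omega
  have hxN : io w ^ N * H sysA N N g = A N := by
    unfold H T
    rw [taylor_top _ _ _ (natDegree_map_le.trans hgd), coeff_map, hgc N le_rfl, hw]
    have h1 : algebraMap Ka Lf (a N) = A N := rfl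
    rw [h1]
    have := io_w0
    have h2 : io w ^ N * (io w ^ N * ((io w ^ 2)⁻¹) ^ N * A N) =
        (io w ^ 2 * (io w ^ 2)⁻¹) ^ N * A N := by
      rw [mul_pow]; ring
    rw [h2, mul_inv_cancel₀ (pow_ne_zero 2 this), one_pow, one_mul]
  have halg : AlgU (w ^ N * h) := by
    obtain ⟨P, hP, hP0⟩ := hA N
    refine ⟨P, hP, io_inj ?_⟩
    rw [map_zero]
    unfold ev2
    rw [coe_eval₂RingHom, hom_eval₂, map_mul, map_pow, ← hx, hxN, hP0]
  have hcoh : ∀ n : ℕ, (n : ℚ) ^ (N + 1) * PowerSeries.coeff n h =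
      gam N N * (c * PowerSeries.coeff n (w ^ (N + 2) * G)) := by
    intro n
    have h1 := hcoN n
    rw [hx, co_io, co_io, if_neg (by omega), if_neg (by omega)] at h1
    simpa using h1
  have hgrow : PolyGrowth h := by
    obtain ⟨B, E, hB⟩ := hgr
    refine ⟨max |((PowerSeries.coeff 0 h : ℚ) : ℝ)| (|((gam N N * c : ℚ) : ℝ)| * B), E, fun n => ?_⟩
    have hE : (1 : ℝ) ≤ ((n : ℝ) + 1) ^ E := one_le_pow₀ (by linarith [n.cast_nonneg (α := ℝ)])
    rcases Nat.eq_zero_or_pos n with rfl | hn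
    · refine (le_max_left _ (|((gam N N * c : ℚ) : ℝ)| * B)).trans ?_
      exact le_mul_of_one_le_right (le_trans (abs_nonneg _) (le_max_left _ _)) hE
    · have hn1 : (1 : ℝ) ≤ (n : ℝ) ^ (N + 1) := one_le_pow₀ (by exact_mod_cast hn)
      have h1 := congrArg (fun x : ℚ => |(x : ℝ)|) (hcoh n)
      simp only [Rat.cast_mul, Rat.cast_pow, Rat.cast_natCast, abs_mul, abs_pow, Nat.abs_cast] at h1
      calc |((PowerSeries.coeff n h : ℚ) : ℝ)|
          ≤ (n : ℝ) ^ (N + 1) * |((PowerSeries.coeff n h : ℚ) : ℝ)| :=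
            le_mul_of_one_le_left (abs_nonneg _) hn1
        _ = |((gam N N * c : ℚ) : ℝ)| * |((PowerSeries.coeff n (w ^ (N + 2) * G) : ℚ) : ℝ)| := by
            rw [h1]; push_cast; rw [abs_mul]; ring
        _ ≤ |((gam N N * c : ℚ) : ℝ)| * (B * ((n : ℝ) + 1) ^ E) :=
            mul_le_mul_of_nonneg_left (hB n) (abs_nonneg _)
        _ = (|((gam N N * c : ℚ) : ℝ)| * B) * ((n : ℝ) + 1) ^ E := by ring
        _ ≤ _ := mul_le_mul_of_nonneg_right (le_max_right _ _) (by positivity)
  -- conclusion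
  have h0 := hneg N h hN halg hgrow
  have h1 : w ^ (N + 2) * G = 0 := by
    ext n
    have h2 := hcoh n
    rw [h0, map_zero, mul_zero] at h2
    rw [map_zero]
    exact ((mul_eq_zero.1 ((mul_eq_zero.1 h2.symm).resolve_left (gam_ne N))).resolve_left hc)
  rcases mul_eq_zero.1 h1 with h2 | h2
  · exact Run7.h709.OD.w_ne theta_holds ((pow_eq_zero_iff (by omega)).1 h2)
  · exact hG0 h2

end H250.GEN
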