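import Pool.Agent.Run7.h594.GEN.AlgU

/-!
# The odd part of an algebraic series is algebraic
-/

set_option autoImplicit false

namespace H250.GEN

open Polynomial H809.OD H594.OD H594.GEN H635.GEN

lemma ng_inj : Function.Injective ng := by
  intro a b h
  have h1 : ng (ng a) = ng (ng b) := by rw [h]
  have h2 : ∀ x, ng (ng x) = x := by
    intro x
    ext n
    simp only [ng, PowerSeries.coeff_rescale]
    rw [← mul_assoc, ← mul_pow]
    simp
  rwa [h2, h2] at h1

/-- `(1 - 8 u)^M P(ng u)` is a polynomial in `u` -/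
lemma exists_clear (M : ℕ) (P : Polynomial ℚ) (hM : P.natDegree ≤ M) : ∃ Q : Polynomial ℚ,
    (aeval u Q : PowerSeries ℚ) = (1 - 8 * u) ^ M * ng (aeval u P) := by
  refine ⟨∑ j ∈ Finset.range (M + 1), C (P.coeff j) * (-X) ^ j * (1 - 8 * X) ^ (M - j), ?_⟩
  have h8 : (aeval u (8 : Polynomial ℚ) : PowerSeries ℚ) = 8 := map_ofNat _ 8
  have hP : P = ∑ j ∈ Finset.range (M + 1), C (P.coeff j) * X ^ j :=
    Polynomial.as_sum_range_C_mul_X_pow' P (by omega)
  conv_rhs => rw [hP]
  rw [map_sum, map_sum, map_sum, Finset.mul_sum]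
  refine Finset.sum_congr rfl fun j hj => ?_
  have hj' : j ≤ M := by
    have := Finset.mem_range.mp hj
    omega
  have hu : (1 - 8 * u) ^ M * (ng u) ^ j = (-u) ^ j * (1 - 8 * u) ^ (M - j) := by
    have h1 : (1 - 8 * u) ^ M = (1 - 8 * u) ^ (M - j) * (1 - 8 * u) ^ j := by
      rw [← pow_add]
      congr 1
      omega
    rw [h1, mul_assoc, ← mul_pow, mul_comm (1 - 8 * u) (ng u), theta_holds.ng_u, mul_comm]
  have hC : ∀ a : ℚ, ng ((aeval u (C a : Polynomial ℚ)) : PowerSeries ℚ) = aeval u (C a : Polynomial ℚ) := by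
    intro a
    rw [aeval_C]
    have : algebraMap ℚ (PowerSeries ℚ) a = PowerSeries.C a := rfl
    rw [this]
    ext n
    simp only [ng, PowerSeries.coeff_rescale, PowerSeries.coeff_C]
    split_ifs with h
    · subst h; simp
    · simp
  simp only [map_mul, map_pow, map_neg, map_sub, map_one, aeval_X, h8]
  rw [hC]
  linear_combination -(aeval u (C (P.coeff j) : Polynomial ℚ)) * hu

lemma AlgU.ng {G : PowerSeries ℚ} (hG : AlgU G) : AlgU (H809.OD.ng G) := by
  obtain ⟨Φ, h0, h1⟩ := hG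
  obtain ⟨M, hM⟩ : ∃ M : ℕ, ∀ i, (Φ.coeff i).natDegree ≤ M := by
    refine ⟨∑ i ∈ Φ.support, (Φ.coeff i).natDegree, fun i => ?_⟩
    by_cases hi : i ∈ Φ.support
    · exact Finset.single_le_sum (f := fun i => (Φ.coeff i).natDegree) (fun _ _ => Nat.zero_le _) hi
    · rw [Polynomial.notMem_support_iff.mp hi]; simp
  choose Q hQ using fun i => exists_clear M (Φ.coeff i) (hM i)
  refine ⟨∑ i ∈ Finset.range (Φ.natDegree + 1), C (Q i) * X ^ i, ?_, ?_⟩
  · intro hz
    have h2 := congrArg (fun p => Polynomial.coeff p Φ.natDegree) hz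
    simp only [finsetSum_coeff, coeff_C_mul, coeff_X_pow, coeff_zero, mul_ite, mul_one,
      mul_zero] at h2
    rw [Finset.sum_ite_eq] at h2
    rw [if_pos (Finset.self_mem_range_succ _)] at h2
    have h3 := hQ Φ.natDegree
    rw [h2, map_zero] at h3
    have h4 : (1 - 8 * u : PowerSeries ℚ) ≠ 0 := by
      have := aeval_u_ne (P := (1 - 8 * X : Polynomial ℚ)) (by
        intro h
        have := congrArg (fun p => Polynomial.coeff p 0) h
        simp at this)
      have h8 : (aeval u (8 : Polynomial ℚ) : PowerSeries ℚ) = 8 := map_ofNat _ 8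
      simpa [h8] using this
    have h5 : H809.OD.ng (aeval u Φ.leadingCoeff) ≠ 0 := by
      intro h
      have h6 := ng_inj (h.trans (map_zero H809.OD.ng).symm)
      exact aeval_u_ne (leadingCoeff_ne_zero.mpr h0) h6
    exact mul_ne_zero (pow_ne_zero M h4) h5 h3.symm
  · have h2 : H635.GEN.ev2 G Φ = ∑ i ∈ Finset.range (Φ.natDegree + 1), aeval u (Φ.coeff i) * G ^ i := by
      conv_lhs => rw [Φ.as_sum_range]
      rw [map_sum]
      refine Finset.sum_congr rfl fun i _ => ?_
      rw [ev2_monomial]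
    rw [map_sum]
    have h3 : ∀ i ∈ Finset.range (Φ.natDegree + 1),
        H635.GEN.ev2 (H809.OD.ng G) (C (Q i) * X ^ i) =
          (1 - 8 * u) ^ M * H809.OD.ng (aeval u (Φ.coeff i) * G ^ i) := by
      intro i _
      rw [map_mul, map_pow, ev2_C, ev2_X, hQ, map_mul, map_pow, mul_assoc]
    rw [Finset.sum_congr rfl h3, ← Finset.mul_sum, ← map_sum, ← h2, h1, map_zero, mul_zero]

/-- Statement ODD. -/
theorem odd : S_Odd := by
  intro k G hG
  refine AlgU.sub hG (AlgU.mul (AlgU.pow ?_ k) (AlgU.ng hG))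
  have h8 : (aeval u (8 : Polynomial ℚ) : PowerSeries ℚ) = 8 := map_ofNat _ 8
  have := algU_poly (1 - 8 * X : Polynomial ℚ)
  simpa [h8] using this

end H250.GEN
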